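import Pool.Agent.helper78.HR.Defs

/-!
HR project (MP_58257a_co), row CH (helper79): the crossing order is transitive; a chain has a common grid point.
-/

set_option autoImplicit false

namespace Pool.Agent.helper78.HR

open Finset

/-- row CH. The crossing order is transitive. -/
theorem Cr_trans {ι : Type*} (x y : ι → ℤ) (hx : Function.Injective x) (hy : Function.Injective y)
    (f g h : Fm ι) (h1 : Cr x y f g) (h2 : Cr x y g h) : Cr x y f h := by
  obtain ⟨n1, a1, b1, c1, d1⟩ := h1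
  obtain ⟨n2, a2, b2, c2, d2⟩ := h2
  refine ⟨?_, a2.trans a1, b1.trans b2, c1.trans c2, d2.trans d1⟩
  rintro rfl
  apply n1
  have e1 : f.1 = g.1 := hx (le_antisymm a2 a1)
  have e2 : f.2.1 = g.2.1 := hx (le_antisymm b1 b2)
  have e3 : f.2.2.1 = g.2.2.1 := hy (le_antisymm c1 c2)
  have e4 : f.2.2.2 = g.2.2.2 := hy (le_antisymm d2 d1)
  exact Prod.ext e1 (Prod.ext e2 (Prod.ext e3 e4))

/-- row CH. A chain of the crossing order (of tight frames) has a common grid point
(x p, y q): take p = the left point with the largest x, q = the bottom point with the largest y. -/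
theorem chain_pt {ι : Type*} (x y : ι → ℤ) (C : Finset (Fm ι)) (hC : C.Nonempty)
    (hfr : ∀ f ∈ C, Fr x y f)
    (hch : ∀ f ∈ C, ∀ g ∈ C, f ≠ g → Cr x y f g ∨ Cr x y g f) :
    ∃ p q : ι, ∀ f ∈ C, In x y f (x p, y q) := by
  obtain ⟨g, hg, hgm⟩ := C.exists_max_image (fun f => x f.1) hC
  obtain ⟨g', hg', hgm'⟩ := C.exists_max_image (fun f => y f.2.2.1) hC
  have hlr : ∀ f ∈ C, x f.1 ≤ x f.2.1 := fun f hf => (hfr f hf).1.2.1
  have hbt : ∀ f ∈ C, y f.2.2.1 ≤ y f.2.2.2 := fun f hf => (hfr f hf).2.2.1.2.2.2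
  refine ⟨g.1, g'.2.2.1, fun f hf => ⟨hgm f hf, ?_, hgm' f hf, ?_⟩⟩
  · show x g.1 ≤ x f.2.1
    by_cases hfg : f = g
    · rw [hfg]; exact hlr g hg
    · rcases hch f hf g hg hfg with h | h
      · exact h.2.1.trans (hlr f hf)
      · exact (hlr g hg).trans h.2.2.1
  · show y g'.2.2.1 ≤ y f.2.2.2
    by_cases hfg : f = g'
    · rw [hfg]; exact hbt g' hg'
    · rcases hch f hf g' hg' hfg with h | h
      · exact (hbt g' hg').trans h.2.2.2.2
      · exact h.2.2.2.1.trans (hbt f hf)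

end Pool.Agent.helper78.HR
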